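import Pool.Agent.Lib.Pf91712.Greedy

/-!
`Pf91712.greedy` with a smaller failure probability.
-/

set_option autoImplicit false

open Finset

namespace Pool.Agent.Lib.Pf91712

open Pool.Agent.Lib.Pa76659 (DT)

open GreedyAux in
theorem greedyN {τ M q w d t : ℕ} {ρ : Type} [Fintype ρ] [DecidableEq ρ] {Q : Type}
    (cq : Q → CQ (ρ × Fin (τ + 2) × Fin M) w) (hd : ∀ p, (cq p).Dep d) (T : DT Q Bool)
    (hT : T.depth ≤ t) (hA : 4 * (t * w * (d + 1) ^ (2 * τ + 1)) ≤ M ^ (τ + 1))
    (r : Fin (τ + 2) → ρ → Fin (q + 1)) :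
    2 ^ (t + 2) * Nat.card {y : ρ → Fin (τ + 2) → Fin M // ¬ ∃ K : Finset (ρ × Fin (τ + 2) × Fin M),
      K.card ≤ (t + 1) * (τ + 1) ∧ (∀ e ∈ K, zet y r e = true) ∧
        GoodP bl cq (zet y r) K τ T} ≤ Fintype.card (ρ → Fin (τ + 2) → Fin M) := by
  classical
  set W := t * w * (d + 1) ^ (2 * τ + 1) with hW
  set A := Fintype.card (ρ → Fin (τ + 2) → Fin M) with hAdef
  set bad : Finset (ρ → Fin (τ + 2) → Fin M) := univ.filter fun y =>
    ¬ ∃ K : Finset (ρ × Fin (τ + 2) × Fin M),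
      K.card ≤ (t + 1) * (τ + 1) ∧ (∀ e ∈ K, zet y r e = true) ∧
        GoodP bl cq (zet y r) K τ T with hbad
  have hcard : Nat.card {y : ρ → Fin (τ + 2) → Fin M //
      ¬ ∃ K : Finset (ρ × Fin (τ + 2) × Fin M),
      K.card ≤ (t + 1) * (τ + 1) ∧ (∀ e ∈ K, zet y r e = true) ∧
        GoodP bl cq (zet y r) K τ T} = bad.card := by
    rw [Nat.card_eq_fintype_card, Fintype.card_subtype]
  rw [hcard]
  set cov : Finset (ρ → Fin (τ + 2) → Fin M) := (paths T).toFinset.biUnion fun l =>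
    (KK cq τ l (t + 1)).biUnion fun K => univ.filter fun y => ∀ e ∈ K, e.2.2 = y e.1 e.2.1
    with hcov
  have hsub : bad ⊆ cov := by
    intro y hy
    obtain ⟨l, hl, K, hK, hKz⟩ := process bl cq (zet y r) τ T (t := t) (Finset.mem_filter.1 hy).2
    rw [hcov, Finset.mem_biUnion]
    refine ⟨l, List.mem_toFinset.2 hl, Finset.mem_biUnion.2 ⟨K, hK, ?_⟩⟩
    refine Finset.mem_filter.2 ⟨Finset.mem_univ _, fun e he => ?_⟩
    have h1 := hKz e he
    unfold zet at h1
    exact (of_decide_eq_true h1).2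
  have hlen : (paths T).toFinset.card ≤ 2 ^ t :=
    (List.toFinset_card_le _).trans ((paths_length T).trans
      (Nat.pow_le_pow_right (by norm_num) hT))
  have hKKc : ∀ l ∈ (paths T).toFinset, (KK cq τ l (t + 1)).card ≤ W ^ (t + 1) := by
    intro l hl
    exact KK_card cq hd τ l ((paths_mem_length T l (List.mem_toFinset.1 hl)).trans hT) (t + 1)
  rcases Nat.eq_zero_or_pos W with hW0 | hW0
  · have hempty : cov = ∅ := by
      refine Finset.eq_empty_of_forall_notMem fun y hy => ?_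
      rw [hcov] at hy
      obtain ⟨l, hl, hy'⟩ := Finset.mem_biUnion.1 hy
      have h1 := hKKc l hl
      rw [hW0, zero_pow (Nat.succ_ne_zero _)] at h1
      have h2 : KK cq τ l (t + 1) = ∅ := Finset.card_eq_zero.1 (Nat.le_zero.1 h1)
      rw [h2, Finset.biUnion_empty] at hy'
      exact absurd hy' (Finset.notMem_empty _)
    have h3 : bad = ∅ := Finset.subset_empty.1 (hempty ▸ hsub)
    rw [h3]
    simp
  · have hcovb : cov.card * M ^ ((t + 1) * (τ + 1)) ≤ 2 ^ t * (W ^ (t + 1) * A) := by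
      have h1 : cov.card ≤ ∑ l ∈ (paths T).toFinset, ∑ K ∈ KK cq τ l (t + 1),
          ((univ : Finset (ρ → Fin (τ + 2) → Fin M)).filter
            fun y => ∀ e ∈ K, e.2.2 = y e.1 e.2.1).card :=
        Finset.card_biUnion_le.trans (Finset.sum_le_sum fun l _ => Finset.card_biUnion_le)
      refine (Nat.mul_le_mul_right _ h1).trans ?_
      rw [Finset.sum_mul]
      refine (Finset.sum_le_card_nsmul _ _ (W ^ (t + 1) * A) ?_).trans ?_
      · intro l hl
        rw [Finset.sum_mul]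
        refine (Finset.sum_le_card_nsmul _ _ A ?_).trans ?_
        · intro K hK
          have h2 := count K
          rw [KK_mem_card cq τ l (t + 1) K hK] at h2
          exact h2
        · rw [smul_eq_mul]
          exact Nat.mul_le_mul_right _ (hKKc l hl)
      · rw [smul_eq_mul]
        exact Nat.mul_le_mul_right _ hlen
    have hbc : bad.card ≤ cov.card := Finset.card_le_card hsub
    have h2W : (4 * W) ^ (t + 1) ≤ M ^ ((t + 1) * (τ + 1)) := by
      rw [mul_comm (t + 1), pow_mul]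
      exact Nat.pow_le_pow_left hA _
    have h3 : bad.card * (4 * W) ^ (t + 1) ≤ 2 ^ t * (W ^ (t + 1) * A) :=
      (Nat.mul_le_mul hbc h2W).trans hcovb
    have h4 : (2 ^ (t + 2) * bad.card) * (2 ^ t * W ^ (t + 1)) ≤ A * (2 ^ t * W ^ (t + 1)) := by
      calc (2 ^ (t + 2) * bad.card) * (2 ^ t * W ^ (t + 1)) = bad.card * (4 * W) ^ (t + 1) := by
            rw [mul_pow 4 W (t + 1), show (4 : ℕ) ^ (t + 1) = 2 ^ (t + 2) * 2 ^ t by
              rw [show (4 : ℕ) = 2 ^ 2 by norm_num, ← pow_mul, ← pow_add]; congr 1; ring]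
            ring
        _ ≤ 2 ^ t * (W ^ (t + 1) * A) := h3
        _ = A * (2 ^ t * W ^ (t + 1)) := by ring
    exact Nat.le_of_mul_le_mul_right h4 (by positivity)

end Pool.Agent.Lib.Pf91712
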