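import Pool.Agent.Lib.Pf91712x.CoreX
import Pool.Agent.Lib.Pf91712n.GreedyN

/-!
The lower bound for co-nondeterministic algorithms. Copy of `coreX` (Pf91712x/CoreX.lean) with a family of trees `T γ`,
`γ : Γ`, `card Γ ≤ 2 ^ t`, instead of `T`. Suppose the conclusion fails. For `r ∈ R0` and every `y` the answer to `zet y r` is no, so
some `T γ` answers `false`. `G y r`: there are `γ`, `K` with `(T γ).eval (..) = false` on `zet y r`, `K.card ≤ s`, `∀ e ∈ K, zet y r e = true`,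
`GoodP .. (T γ)`. The `y` with `¬ G y r` are in the union over `γ` of the bad sets of `greedyN` for `T γ` (take the `γ` which answers
`false`), so there are at most `2 ^ t * A / 2 ^ (t + 2)` of them: `2 * #{y | ¬ G y r} ≤ A`. Then as in `coreX` one `y`, the sets `X ∈ 𝒳 γ K` from
`cover (q := 1) cq y K t (T γ) (hT γ) false` (all contained in the no-instances, because `T γ` answers `false` there); the number
of all of them is at most `U = 2 ^ t * ((card ρ (τ + 2) M + 1) ^ s * ((w + 1) ^ (2 ^ (τ + 2))) ^ t)`.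
-/

set_option autoImplicit false

open Finset

namespace Pool.Agent.Lib.Pf91712n

open Pool.Agent.Lib.Pa76659 (DT)
open Pool.Agent.Lib.Pf91712 Pool.Agent.Lib.Pf91712x

theorem coreN {τ M w d t J : ℕ} {ρ : Type} [Fintype ρ] [DecidableEq ρ] {Q Γ : Type} [Fintype Γ]
    (hΓ : Fintype.card Γ ≤ 2 ^ t)
    (π : ρ → Fin J) (hπ : ∀ b, bz π b = 4 ^ (τ + 3))
    (cq : Q → CQ (ρ × Fin (τ + 2) × Fin M) w) (hd : ∀ p, (cq p).Dep d) (T : Γ → DT Q Bool)
    (hT : ∀ γ, (T γ).depth ≤ t) (hM : 0 < M)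
    (hA : 4 * (t * w * (d + 1) ^ (2 * τ + 1)) ≤ M ^ (τ + 1))
    (hB : 2 * (2 ^ t * ((Fintype.card ρ * (τ + 2) * M + 1) ^ ((t + 1) * (τ + 1)) *
        ((w + 1) ^ (2 ^ (τ + 2))) ^ t)) < 2 ^ J) :
    ∃ ζ : ρ × Fin (τ + 2) × Fin M → Bool,
      ¬ ((∀ γ, (T γ).eval (fun p => (cq p).val ζ) = true) ↔ ∃ x, ∀ i c, ζ (x, i, c) = false) := by
  classical
  by_contra hcon
  push Not at hcon
  set s : ℕ := (t + 1) * (τ + 1) with hs
  set R : Finset (Fin (τ + 1 + 1) → ρ → Fin (1 + 1)) := R0 (τ + 1) J π with hR0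
  have hRm : ∀ r ∈ R, ∀ x, ∃ i, r i x ≠ 0 := by
    intro r hr
    rw [hR0, R0, mem_filter] at hr
    exact hr.2.2
  have hπ' : ∀ b, bz π b = 4 ^ (τ + 1 + 2) := fun b => hπ b
  let G : (ρ → Fin (τ + 2) → Fin M) → (Fin (τ + 1 + 1) → ρ → Fin (1 + 1)) → Prop := fun y r =>
    ∃ γ : Γ, ∃ K : Finset (ρ × Fin (τ + 2) × Fin M),
      K.card ≤ s ∧ (∀ e ∈ K, zet y r e = true) ∧ GoodP bl cq (zet y r) K τ (T γ) ∧
        (T γ).eval (fun p => (cq p).val (zet y r)) = false
  have hR0f : ∀ y : ρ → Fin (τ + 2) → Fin M, ∀ r ∈ R,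
      ∃ γ, (T γ).eval (fun p => (cq p).val (zet y r)) = false := by
    intro y r hr
    by_contra hno
    push Not at hno
    obtain ⟨x, hx⟩ := (hcon (zet y r)).1 (fun γ => by
      have := hno γ
      rwa [ne_eq, Bool.not_eq_false] at this)
    obtain ⟨i, hi⟩ := hRm r hr x
    have := hx i (y x i)
    simp [zet, hi] at this
  have hgr : ∀ r ∈ R, 2 * (univ.filter fun y => ¬ G y r).card ≤
      Fintype.card (ρ → Fin (τ + 2) → Fin M) := by
    intro r hr
    have h1 : (univ.filter fun y => ¬ G y r) ⊆ (univ : Finset Γ).biUnion fun γ =>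
        univ.filter fun y : ρ → Fin (τ + 2) → Fin M =>
          ¬ ∃ K : Finset (ρ × Fin (τ + 2) × Fin M),
            K.card ≤ s ∧ (∀ e ∈ K, zet y r e = true) ∧ GoodP bl cq (zet y r) K τ (T γ) := by
      intro y hy
      rw [mem_filter] at hy
      obtain ⟨γ, hγ⟩ := hR0f y r hr
      refine mem_biUnion.2 ⟨γ, mem_univ _, mem_filter.2 ⟨mem_univ _, ?_⟩⟩
      rintro ⟨K, hK1, hK2, hK3⟩
      exact hy.2 ⟨γ, K, hK1, hK2, hK3, hγ⟩
    have h2 : ∀ γ, 2 ^ (t + 2) * (univ.filter fun y : ρ → Fin (τ + 2) → Fin M =>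
          ¬ ∃ K : Finset (ρ × Fin (τ + 2) × Fin M),
            K.card ≤ s ∧ (∀ e ∈ K, zet y r e = true) ∧ GoodP bl cq (zet y r) K τ (T γ)).card ≤
        Fintype.card (ρ → Fin (τ + 2) → Fin M) := by
      intro γ
      have := greedyN cq hd (T γ) (hT γ) hA r
      rw [Nat.card_eq_fintype_card, Fintype.card_subtype] at this
      exact this
    have h3 : 2 ^ (t + 2) * (univ.filter fun y => ¬ G y r).card ≤
        2 ^ t * Fintype.card (ρ → Fin (τ + 2) → Fin M) := by
      calc 2 ^ (t + 2) * (univ.filter fun y => ¬ G y r).card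
          ≤ 2 ^ (t + 2) * ∑ γ : Γ, (univ.filter fun y : ρ → Fin (τ + 2) → Fin M =>
              ¬ ∃ K : Finset (ρ × Fin (τ + 2) × Fin M),
                K.card ≤ s ∧ (∀ e ∈ K, zet y r e = true) ∧
                  GoodP bl cq (zet y r) K τ (T γ)).card :=
            Nat.mul_le_mul_left _ ((card_le_card h1).trans card_biUnion_le)
        _ = ∑ γ : Γ, 2 ^ (t + 2) * (univ.filter fun y : ρ → Fin (τ + 2) → Fin M =>
              ¬ ∃ K : Finset (ρ × Fin (τ + 2) × Fin M),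
                K.card ≤ s ∧ (∀ e ∈ K, zet y r e = true) ∧
                  GoodP bl cq (zet y r) K τ (T γ)).card := by rw [mul_sum]
        _ ≤ ∑ _γ : Γ, Fintype.card (ρ → Fin (τ + 2) → Fin M) := sum_le_sum fun γ _ => h2 γ
        _ = Fintype.card Γ * Fintype.card (ρ → Fin (τ + 2) → Fin M) := by
            rw [sum_const, smul_eq_mul, card_univ]
        _ ≤ _ := Nat.mul_le_mul_right _ hΓ
    have h4 : 2 ^ t * (4 * (univ.filter fun y => ¬ G y r).card) ≤
        2 ^ t * Fintype.card (ρ → Fin (τ + 2) → Fin M) := by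
      calc 2 ^ t * (4 * (univ.filter fun y => ¬ G y r).card)
          = 2 ^ (t + 2) * (univ.filter fun y => ¬ G y r).card := by ring
        _ ≤ _ := h3
    have h5 := Nat.le_of_mul_le_mul_left h4 (by positivity)
    omega
  have : Nonempty (Fin M) := ⟨⟨0, hM⟩⟩
  -- one good `y`
  obtain ⟨y, hy⟩ : ∃ y, 2 * (R.filter fun r => ¬ G y r).card ≤ R.card := by
    by_contra hno
    push Not at hno
    have h1 : ∑ y : ρ → Fin (τ + 2) → Fin M, (R.card + 1) ≤
        ∑ y : ρ → Fin (τ + 2) → Fin M, 2 * (R.filter fun r => ¬ G y r).card :=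
      sum_le_sum fun y _ => hno y
    have h2 : ∑ y : ρ → Fin (τ + 2) → Fin M, 2 * (R.filter fun r => ¬ G y r).card =
        ∑ r ∈ R, 2 * (univ.filter fun y => ¬ G y r).card := by
      rw [← mul_sum, ← mul_sum]
      congr 1
      simp only [card_filter]
      exact sum_comm
    have h3 : ∑ r ∈ R, 2 * (univ.filter fun y => ¬ G y r).card ≤
        ∑ r ∈ R, Fintype.card (ρ → Fin (τ + 2) → Fin M) := sum_le_sum fun r hr => hgr r hr
    rw [sum_const, smul_eq_mul] at h1 h3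
    rw [h2] at h1
    have h4 := h1.trans h3
    rw [card_univ] at h4
    have h5 : 0 < Fintype.card (ρ → Fin (τ + 2) → Fin M) := Fintype.card_pos
    nlinarith
  -- the sets `X`
  have hcov := fun γ K => cover (q := 1) cq y K t (T γ) (hT γ) false
  choose 𝒳 h𝒳len h𝒳ci h𝒳 using hcov
  have hsub : ∀ γ K, ∀ X ∈ 𝒳 γ K, ∀ r ∈ X, ∀ x, ∃ i, r i x ≠ 0 := by
    intro γ K X hX r hr x
    have h1 := ((h𝒳 γ K r).1 ⟨X, hX, hr⟩).2.2
    by_contra hno
    push Not at hno
    have h2 := (hcon (zet y r)).2 ⟨x, fun i c => by simp [zet, hno i]⟩ γ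
    rw [h1] at h2
    exact absurd h2 (by simp)
  set 𝒦 : Finset (Finset (ρ × Fin (τ + 2) × Fin M)) := univ.filter fun K => K.card ≤ s with h𝒦
  set U : ℕ := 2 ^ t * ((Fintype.card ρ * (τ + 2) * M + 1) ^ s * ((w + 1) ^ (2 ^ (τ + 2))) ^ t)
    with hU
  have hUpos : 0 < U := by positivity
  have h𝒦c : 𝒦.card ≤ (Fintype.card ρ * (τ + 2) * M + 1) ^ s := by
    have := card_small (E := ρ × Fin (τ + 2) × Fin M) s
    simpa [Fintype.card_prod, mul_assoc] using this
  have hRpos : 0 < R.card := R0_pos (τ + 1) J (by omega) π hπ'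
  obtain ⟨γ, K, X, hX, hXc⟩ : ∃ γ K, ∃ X ∈ 𝒳 γ K,
      R.card ≤ 2 * U * Nat.card {r // r ∈ R ∧ r ∈ X} := by
    by_contra hno
    push Not at hno
    -- count
    have h1 : R.card ≤ 2 * (R.filter fun r => G y r).card := by
      have := card_filter_add_card_filter_not (s := R) (fun r => G y r)
      omega
    have h2 : (R.filter fun r => G y r) ⊆
        ((univ : Finset Γ) ×ˢ 𝒦).biUnion fun p =>
          (𝒳 p.1 p.2).toFinset.biUnion fun X => univ.filter fun r => r ∈ R ∧ r ∈ X := by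
      intro r hr
      rw [mem_filter] at hr
      obtain ⟨hr0, γ, K, hK1, hK2, hK3, hK4⟩ := hr
      obtain ⟨X, hX, hrX⟩ := (h𝒳 γ K r).2 ⟨hK2, hK3, hK4⟩
      simp only [mem_biUnion]
      exact ⟨(γ, K), by simp [h𝒦, hK1], X, by simpa using hX, by simpa using ⟨hr0, hrX⟩⟩
    have h3 : ∀ γ K, 2 * U * ((𝒳 γ K).toFinset.biUnion fun X =>
          univ.filter fun r => r ∈ R ∧ r ∈ X).card ≤
        ((w + 1) ^ (2 ^ (τ + 2))) ^ t * (R.card - 1) := by
      intro γ K
      calc 2 * U * ((𝒳 γ K).toFinset.biUnion fun X => univ.filter fun r => r ∈ R ∧ r ∈ X).card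
          ≤ 2 * U * ∑ X ∈ (𝒳 γ K).toFinset, (univ.filter fun r => r ∈ R ∧ r ∈ X).card :=
            Nat.mul_le_mul_left _ card_biUnion_le
        _ = ∑ X ∈ (𝒳 γ K).toFinset, 2 * U * (univ.filter fun r => r ∈ R ∧ r ∈ X).card := by
            rw [mul_sum]
        _ ≤ ∑ X ∈ (𝒳 γ K).toFinset, (R.card - 1) := by
            apply sum_le_sum
            intro X hX
            have := hno γ K X (by simpa using hX)
            rw [Nat.card_eq_fintype_card, Fintype.card_subtype] at this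
            omega
        _ = (𝒳 γ K).toFinset.card * (R.card - 1) := by rw [sum_const, smul_eq_mul]
        _ ≤ _ := Nat.mul_le_mul_right _ ((List.toFinset_card_le _).trans (h𝒳len γ K))
    have h4 : U * R.card ≤ U * (R.card - 1) := by
      calc U * R.card ≤ U * (2 * (R.filter fun r => G y r).card) := Nat.mul_le_mul_left _ h1
        _ = 2 * U * (R.filter fun r => G y r).card := by ring
        _ ≤ 2 * U * ∑ p ∈ (univ : Finset Γ) ×ˢ 𝒦, ((𝒳 p.1 p.2).toFinset.biUnion fun X =>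
              univ.filter fun r => r ∈ R ∧ r ∈ X).card :=
            Nat.mul_le_mul_left _ ((card_le_card h2).trans card_biUnion_le)
        _ = ∑ p ∈ (univ : Finset Γ) ×ˢ 𝒦, 2 * U * ((𝒳 p.1 p.2).toFinset.biUnion fun X =>
              univ.filter fun r => r ∈ R ∧ r ∈ X).card := by
            rw [mul_sum]
        _ ≤ ∑ p ∈ (univ : Finset Γ) ×ˢ 𝒦, ((w + 1) ^ (2 ^ (τ + 2))) ^ t * (R.card - 1) :=
            sum_le_sum fun p _ => h3 p.1 p.2
        _ = Fintype.card Γ * 𝒦.card * (((w + 1) ^ (2 ^ (τ + 2))) ^ t * (R.card - 1)) := by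
            rw [sum_const, smul_eq_mul, card_product, card_univ]
        _ ≤ 2 ^ t * (Fintype.card ρ * (τ + 2) * M + 1) ^ s *
            (((w + 1) ^ (2 ^ (τ + 2))) ^ t * (R.card - 1)) :=
            Nat.mul_le_mul_right _ (Nat.mul_le_mul hΓ h𝒦c)
        _ = U * (R.card - 1) := by rw [hU]; ring
    have h5 := Nat.le_of_mul_le_mul_left h4 hUpos
    omega
  -- numbers
  have hb := cyl (τ + 1) J (by omega) π hπ' X (h𝒳ci γ K X hX) (hsub γ K X hX)
  rw [← hR0] at hb
  have hc0 : 0 < Nat.card {r // r ∈ R ∧ r ∈ X} := by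
    rcases Nat.eq_zero_or_pos (Nat.card {r // r ∈ R ∧ r ∈ X}) with h | h
    · rw [h] at hXc; omega
    · exact h
  have h6 : 2 ^ J * Nat.card {r // r ∈ R ∧ r ∈ X} ≤ 2 * U * Nat.card {r // r ∈ R ∧ r ∈ X} :=
    hb.trans hXc
  have h7 := Nat.le_of_mul_le_mul_right h6 hc0
  omega

end Pool.Agent.Lib.Pf91712n
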