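import Pool.Agent.Lib.Pf91712g.Defs

/-!
# Co-nondeterministic reductions
-/

set_option autoImplicit false

namespace Pool.Agent.Lib.Pf91712n

open Pool.Agent.Lib.Pa76659 (Str Lang Prog Halts accepts join)
open Pool.Agent.Lib.Pf91712 (inp3 bitsOf)

/-- The program `M`, with oracles `O` and `F` (queries to `F` with parameter at most `g`), decides the
slice `L · k` in time `a * (|x| + 1) ^ c` with universal guesses of `b * (|x| + 1) ^ c` bits: `x` is in
the slice iff `M` accepts for all guesses `z`. For `b = 0` there are no guesses. -/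
def SolvesAll (O : Lang) (F : Str → ℕ → ℕ) (L : Str → ℕ → Prop) (M : Prog) (a b g c k : ℕ) : Prop :=
  ∀ x : Str,
    (∀ z : Str, z.length = b * (x.length + 1) ^ c →
      Halts (join O (bitsOf F g)) M (inp3 x k z) (a * (x.length + 1) ^ c)) ∧
    (L x k ↔ ∀ z : Str, z.length = b * (x.length + 1) ^ c →
      accepts (join O (bitsOf F g)) M (inp3 x k z) (a * (x.length + 1) ^ c) = true)

end Pool.Agent.Lib.Pf91712n
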