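import Pool.Agent.Lib.Pf91712n.Defs
import Pool.Agent.Lib.Pf91712g.Loc

/-!
Copy of `Pf91712g.locL` (Pf91712g/Loc.lean) with the guesses `z` of length `b * (2 ^ m + 1) ^ c` in the third register
(all queries of `M` have length at most `2 ^ m + k + (a + b) * (2 ^ m + 1) ^ c`).
-/

set_option autoImplicit false

namespace Pool.Agent.Lib.Pf91712n

open Pool.Agent.Lib.Pa76659 (Str Lang Prog Halts accepts join DT)
open Pool.Agent.Lib.Pf91712 (SigmaTwo inp3 bitsOf)
open Pool.Agent.Lib.Pf91712 Pool.Agent.Lib.Pf91712.LocAux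

theorem locN (L : ℕ → ℕ) (M' M : Prog) (f h : ℕ → ℕ) (c' c a b g k m : ℕ) :
    ∃ Λ : ℕ, ∀ O O' : Lang, (∀ v : Str, v.length ≤ Λ → O v = O' v) →
    ((SigmaTwo O (List.replicate (2 ^ m) true) k ↔
        ∀ z : Str, z.length = b * (2 ^ m + 1) ^ c →
          accepts (join O (bitsOf (Pf91712g.cnt L O M' f h c') g)) M
            (inp3 (List.replicate (2 ^ m) true) k z) (a * (2 ^ m + 1) ^ c) = true) ↔
      (SigmaTwo O' (List.replicate (2 ^ m) true) k ↔
        ∀ z : Str, z.length = b * (2 ^ m + 1) ^ c →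
          accepts (join O' (bitsOf (Pf91712g.cnt L O' M' f h c') g)) M
            (inp3 (List.replicate (2 ^ m) true) k z) (a * (2 ^ m + 1) ^ c) = true)) := by
  obtain ⟨B, hB⟩ : ∃ B, B = 2 ^ m + k + a * (2 ^ m + 1) ^ c + b * (2 ^ m + 1) ^ c := ⟨_, rfl⟩
  obtain ⟨Fm, hFm⟩ : ∃ Fm, Fm = ∑ i ∈ Finset.range (g + 1), f i := ⟨_, rfl⟩
  obtain ⟨Hm, hHm⟩ : ∃ Hm, Hm = ∑ i ∈ Finset.range (g + 1), h i := ⟨_, rfl⟩
  obtain ⟨Lm, hLm⟩ : ∃ Lm, Lm = (Finset.range (B + 1)).sup L := ⟨_, rfl⟩
  refine ⟨(m + 1 + (k + 1 + (k * m + k * m))) + B + ((B + g + Hm * Lm) + Fm * (B + 1) ^ c'),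
    fun O O' H => ?_⟩
  have h1 := sigma_congr O O' m k (fun v hv => H v (by omega))
  have hcnt : ∀ (y : Str) (k' : ℕ), k' ≤ g → y.length ≤ B →
      Pf91712g.cnt L O M' f h c' y k' = Pf91712g.cnt L O' M' f h c' y k' := by
    intro y k' hk' hy
    apply Pf91712g.cntL_congr'
    intro z hz
    apply accepts_congr' _ _ _ _ _ _ (inp3_bdd' y k' z)
    intro v hv
    apply H
    have e1 : f k' ≤ Fm := by
      rw [hFm]
      exact Finset.single_le_sum (f := f) (fun _ _ => Nat.zero_le _)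
        (Finset.mem_range.2 (by omega))
    have e2 : h k' ≤ Hm := by
      rw [hHm]
      exact Finset.single_le_sum (f := h) (fun _ _ => Nat.zero_le _)
        (Finset.mem_range.2 (by omega))
    have e3 : f k' * (y.length + 1) ^ c' ≤ Fm * (B + 1) ^ c' := by gcongr
    have e5 : L (Nat.log 2 y.length) ≤ Lm := by
      rw [hLm]
      apply Finset.le_sup (f := L)
      rw [Finset.mem_range]
      have := (Nat.log_le_self 2 y.length).trans hy
      omega
    have e4 : h k' * L (Nat.log 2 y.length) ≤ Hm * Lm := Nat.mul_le_mul e2 e5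
    omega
  have h2 : ∀ z : Str, z.length = b * (2 ^ m + 1) ^ c →
      accepts (join O (bitsOf (Pf91712g.cnt L O M' f h c') g)) M
      (inp3 (List.replicate (2 ^ m) true) k z) (a * (2 ^ m + 1) ^ c) =
      accepts (join O' (bitsOf (Pf91712g.cnt L O' M' f h c') g)) M
        (inp3 (List.replicate (2 ^ m) true) k z) (a * (2 ^ m + 1) ^ c) := by
    intro z hz
    apply accepts_congr' _ _ _ _ _ _ (inp3_bdd' (List.replicate (2 ^ m) true) k z)
    intro v hv
    rw [List.length_replicate, hz] at hv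
    match v, hv with
    | [], _ => rfl
    | false :: v, hv =>
      rw [List.length_cons] at hv
      exact H v (by omega)
    | true :: v, hv =>
      rw [List.length_cons] at hv
      exact bitsOf_congr' _ _ g B hcnt v (by omega)
  have h3 : (∀ z : Str, z.length = b * (2 ^ m + 1) ^ c →
          accepts (join O (bitsOf (Pf91712g.cnt L O M' f h c') g)) M
            (inp3 (List.replicate (2 ^ m) true) k z) (a * (2 ^ m + 1) ^ c) = true) ↔
      (∀ z : Str, z.length = b * (2 ^ m + 1) ^ c →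
          accepts (join O' (bitsOf (Pf91712g.cnt L O' M' f h c') g)) M
            (inp3 (List.replicate (2 ^ m) true) k z) (a * (2 ^ m + 1) ^ c) = true) := by
    constructor
    · intro H1 z hz; rw [← h2 z hz]; exact H1 z hz
    · intro H1 z hz; rw [h2 z hz]; exact H1 z hz
  rw [h1, h3]

end Pool.Agent.Lib.Pf91712n
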