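import Pool.Agent.Lib.Pf91712x.NumX

/-!
Copy of `asymX` (Pf91712x/NumX.lean) with the constants `4` instead of `2` in (2) and the factor `2 ^ t` in (3)
(the exponent grows by `t ≤ 2 ^ (c3 m)`; enlarge the polynomial).
-/

set_option autoImplicit false

namespace Pool.Agent.Lib.Pf91712n

open Pool.Agent.Lib.Pf91712 Pool.Agent.Lib.Pf91712x

theorem asymN (c2 c3 k : ℕ) (W : ℕ → ℕ) (hW : SmallX W) (hk : 2 * c2 + 3 ≤ k) (hk' : c3 + 1 ≤ k) :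
    ∃ m0 : ℕ, ∀ m, m0 ≤ m → ∃ τ : ℕ, 2 * (τ + 3) ≤ k * m ∧
    ∀ t d w : ℕ, t ≤ 2 ^ (c3 * m) → d ≤ 2 ^ (c2 * m) → w ≤ 2 ^ (W m) →
    (τ + 2) * 2 ^ (k * m - (τ + 2)) ≤ 2 ^ (k * m) ∧
    4 * (t * w * (d + 1) ^ (2 * τ + 1)) ≤ (2 ^ (k * m - (τ + 2))) ^ (τ + 1) ∧
    2 * (2 ^ t * ((2 ^ (k * m) * (τ + 2) * 2 ^ (k * m - (τ + 2)) + 1) ^ ((t + 1) * (τ + 1)) *
        ((w + 1) ^ (2 ^ (τ + 2))) ^ t)) < 2 ^ (2 ^ (k * m - 2 * (τ + 3))) := by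
  obtain ⟨m0, hm0⟩ := NumXAux.q3X (k + 1) c3 W hW
  refine ⟨max m0 1, fun m hm => ?_⟩
  obtain ⟨hA, hB⟩ := hm0 m ((le_max_left _ _).trans hm)
  have hmpos : 1 ≤ m := (le_max_right _ _).trans hm
  have hq2 : W m < (W m / m + 1) * m := by
    have := Nat.lt_div_mul_add (a := W m) (b := m) (by omega)
    linarith
  obtain ⟨τ, hτ⟩ : ∃ τ, τ = c3 + 1 + W m / m := ⟨_, rfl⟩
  rw [← hτ] at hA hB
  have hWτ : c3 * m + (W m + 1) ≤ τ * m := by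
    rw [hτ]
    nlinarith
  have h3m : 3 * m ≤ k * m := Nat.mul_le_mul_right _ (by omega)
  refine ⟨τ, by omega, fun t d w ht hd hw => ?_⟩
  have hp1 : (τ + 2) * 2 ^ (k * m - (τ + 2)) ≤ 2 ^ (k * m) := by
    apply AsymAux.p1
    omega
  have h2w : 2 * w ≤ 2 ^ (W m + 1) := by
    rw [pow_succ]
    omega
  refine ⟨hp1, ?_, ?_⟩
  · have h := Pf91712g.q2 c2 c3 k τ (W m + 1) m t d (2 * w) hk hB hWτ ht hd h2w
    calc 4 * (t * w * (d + 1) ^ (2 * τ + 1)) = 2 * (t * (2 * w) * (d + 1) ^ (2 * τ + 1)) := by ring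
      _ ≤ _ := h
  -- the third inequality
  have hT : 1 ≤ 2 ^ (c3 * m) := Nat.one_le_two_pow
  have hN1 : 2 ^ (k * m) * (τ + 2) * 2 ^ (k * m - (τ + 2)) + 1 ≤ 2 ^ (2 * k * m + 1) := by
    have e1 : 2 ^ (k * m) * (τ + 2) * 2 ^ (k * m - (τ + 2)) ≤ 2 ^ (k * m) * 2 ^ (k * m) := by
      rw [mul_assoc]
      exact Nat.mul_le_mul_left _ hp1
    have e2 : 2 ^ (k * m) * 2 ^ (k * m) = 2 ^ (2 * k * m) := by
      rw [← pow_add]; congr 1; ring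
    have e3 : 1 ≤ 2 ^ (2 * k * m) := Nat.one_le_two_pow
    rw [pow_succ]
    omega
  have hw1 : w + 1 ≤ 2 ^ (W m + 1) := by
    have : 1 ≤ 2 ^ (W m) := Nat.one_le_two_pow
    rw [pow_succ]; omega
  obtain ⟨E, hE⟩ : ∃ E, E = 2 + (2 * k * m + 1) * (2 * (τ + 1)) + (W m + 1) * 2 ^ (τ + 2) :=
    ⟨_, rfl⟩
  have hA' : E * 2 ^ (2 * (τ + 3)) < 2 ^ m := by
    refine lt_of_le_of_lt (Nat.mul_le_mul_right _ ?_) hA
    rw [hE]
    have g1 : 1 ≤ 2 * m * (2 * (τ + 1)) := by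
      have : 0 < 2 * m * (2 * (τ + 1)) := by positivity
      omega
    have g2 : (2 * (k + 1) * m + 1) * (2 * (τ + 1)) = (2 * k * m + 1) * (2 * (τ + 1)) + 2 * m * (2 * (τ + 1)) := by
      ring
    rw [g2]
    omega
  have hbase : 2 * (2 ^ t * ((2 ^ (k * m) * (τ + 2) * 2 ^ (k * m - (τ + 2)) + 1) ^ ((t + 1) * (τ + 1)) *
        ((w + 1) ^ (2 ^ (τ + 2))) ^ t)) ≤ 2 ^ (E * 2 ^ (c3 * m)) := by
    have e1 : (2 ^ (k * m) * (τ + 2) * 2 ^ (k * m - (τ + 2)) + 1) ^ ((t + 1) * (τ + 1)) ≤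
        2 ^ ((2 * k * m + 1) * ((2 ^ (c3 * m) + 1) * (τ + 1))) := by
      rw [pow_mul 2 (2 * k * m + 1)]
      calc _ ≤ (2 ^ (2 * k * m + 1)) ^ ((t + 1) * (τ + 1)) := Nat.pow_le_pow_left hN1 _
        _ ≤ _ := Nat.pow_le_pow_right (Nat.pos_of_ne_zero (by positivity)) (by gcongr)
    have e2 : ((w + 1) ^ (2 ^ (τ + 2))) ^ t ≤
        2 ^ ((W m + 1) * (2 ^ (τ + 2) * 2 ^ (c3 * m))) := by
      rw [← pow_mul, pow_mul 2 (W m + 1)]
      calc _ ≤ (2 ^ (W m + 1)) ^ (2 ^ (τ + 2) * t) := Nat.pow_le_pow_left hw1 _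
        _ ≤ _ := Nat.pow_le_pow_right (Nat.pos_of_ne_zero (by positivity)) (by gcongr)
    have e3 : 2 ^ t ≤ 2 ^ (2 ^ (c3 * m)) := Nat.pow_le_pow_right (by norm_num) ht
    calc _ ≤ 2 * (2 ^ (2 ^ (c3 * m)) * (2 ^ ((2 * k * m + 1) * ((2 ^ (c3 * m) + 1) * (τ + 1))) *
          2 ^ ((W m + 1) * (2 ^ (τ + 2) * 2 ^ (c3 * m))))) := by
          gcongr
      _ = 2 ^ (1 + (2 ^ (c3 * m) + ((2 * k * m + 1) * ((2 ^ (c3 * m) + 1) * (τ + 1)) +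
          (W m + 1) * (2 ^ (τ + 2) * 2 ^ (c3 * m))))) := by
          rw [← pow_add, ← pow_add, ← pow_succ']
          congr 1; ring
      _ ≤ _ := by
          apply Nat.pow_le_pow_right (by norm_num)
          have f2 : (2 * k * m + 1) * ((2 ^ (c3 * m) + 1) * (τ + 1)) ≤
              ((2 * k * m + 1) * (2 * (τ + 1))) * 2 ^ (c3 * m) := by
            calc (2 * k * m + 1) * ((2 ^ (c3 * m) + 1) * (τ + 1))
                ≤ (2 * k * m + 1) * ((2 * 2 ^ (c3 * m)) * (τ + 1)) := by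
                  gcongr
                  omega
              _ = _ := by ring
          calc 1 + (2 ^ (c3 * m) + ((2 * k * m + 1) * ((2 ^ (c3 * m) + 1) * (τ + 1)) +
                (W m + 1) * (2 ^ (τ + 2) * 2 ^ (c3 * m))))
              ≤ 2 ^ (c3 * m) + (2 ^ (c3 * m) + (((2 * k * m + 1) * (2 * (τ + 1))) * 2 ^ (c3 * m) +
                (W m + 1) * (2 ^ (τ + 2) * 2 ^ (c3 * m)))) := by
                gcongr
            _ = E * 2 ^ (c3 * m) := by rw [hE]; ring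
  refine lt_of_le_of_lt hbase (Nat.pow_lt_pow_right (by norm_num) ?_)
  have h6 : E * 2 ^ (c3 * m) * 2 ^ (2 * (τ + 3)) <
      2 ^ (k * m - 2 * (τ + 3)) * 2 ^ (2 * (τ + 3)) := by
    calc E * 2 ^ (c3 * m) * 2 ^ (2 * (τ + 3)) = (E * 2 ^ (2 * (τ + 3))) * 2 ^ (c3 * m) := by ring
      _ < 2 ^ m * 2 ^ (c3 * m) := Nat.mul_lt_mul_of_pos_right hA' (by positivity)
      _ = 2 ^ (m + c3 * m) := by rw [pow_add]
      _ ≤ 2 ^ (k * m) := by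
          apply Nat.pow_le_pow_right (by norm_num)
          have := Nat.mul_le_mul_right m hk'
          nlinarith
      _ = 2 ^ (k * m - 2 * (τ + 3)) * 2 ^ (2 * (τ + 3)) := by
          rw [← pow_add]
          congr 1
          omega
  exact Nat.lt_of_mul_lt_mul_right h6

end Pool.Agent.Lib.Pf91712n
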