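import Pool.Agent.Lib.Pf91712x.MachX
import Pool.Agent.Lib.Pf91712n.Defs
import Pool.Agent.Lib.Pf91712n.CoreN
import Pool.Agent.Lib.Pf91712n.NumN

/-!
# The one-stage lower bound for co-nondeterministic reductions
-/

set_option autoImplicit false

namespace Pool.Agent.Lib.Pf91712n

open Pool.Agent.Lib.Pa76659 (Str Lang Prog Halts accepts join DT)
open Pool.Agent.Lib.Pf91712 Pool.Agent.Lib.Pf91712x

theorem inp3_bddz (x : Str) (k : ℕ) (z : Str) :
    Pa76659.Bdd (x.length + k + z.length) (inp3 x k z) := by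
  intro r
  unfold inp3
  split_ifs
  · omega
  · rw [List.length_replicate]; omega
  · omega
  · simp

open MachAux in
theorem machN (L : ℕ → ℕ) (hL : SmallX L) (M' M : Prog) (f h : ℕ → ℕ) (c' c a b g k : ℕ)
    (hk : 2 * ((c + 2) * c' + 1) + 3 + (c + 2) ≤ k) : ∃ m0 : ℕ, ∀ m, m0 ≤ m →
    ∀ O0 : Lang, ∃ O : Lang,
      (∀ s, (∀ u v : Str, u.length = k * m → v.length = k * m → s ≠ code m k u v) →
        O s = O0 s) ∧
      ¬ (SigmaTwo O (List.replicate (2 ^ m) true) k ↔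
        ∀ z : Str, z.length = b * (2 ^ m + 1) ^ c →
          accepts (join O (bitsOf (Pf91712g.cnt L O M' f h c') g)) M
            (inp3 (List.replicate (2 ^ m) true) k z) (a * (2 ^ m + 1) ^ c) = true) := by
  obtain ⟨Fm, hFm⟩ : ∃ Fm : ℕ, Fm = ∑ i ∈ Finset.range (g + 1), f i := ⟨_, rfl⟩
  obtain ⟨Hm, hHm⟩ : ∃ Hm : ℕ, Hm = ∑ i ∈ Finset.range (g + 1), h i := ⟨_, rfl⟩
  obtain ⟨m1, hm1⟩ := mnum (a + b) c c' k Fm 1
  obtain ⟨m2, hm2⟩ := asymN ((c + 2) * c' + 1) (c + 1) k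
    (fun m => Hm * (Finset.range ((c + 2) * m + 1)).sup L)
    (small_supX L hL Hm (c + 2) (by omega)) (by omega) (by omega)
  refine ⟨max m1 m2, fun m hm O0 => ?_⟩
  obtain ⟨n1, n2, n3⟩ := hm1 m ((le_max_left _ _).trans hm)
  obtain ⟨τ, hτk, hτ⟩ := hm2 m ((le_max_right _ _).trans hm)
  obtain ⟨w, hw⟩ : ∃ w, w = 2 ^ (Hm * (Finset.range ((c + 2) * m + 1)).sup L) := ⟨_, rfl⟩
  obtain ⟨a1, a2, a3⟩ := hτ _ _ w n1 n2 hw.le
  obtain ⟨t, ht⟩ : ∃ t : ℕ, t = (a + b) * (2 ^ m + 1) ^ c := ⟨_, rfl⟩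
  obtain ⟨ta, hta⟩ : ∃ ta : ℕ, ta = a * (2 ^ m + 1) ^ c := ⟨_, rfl⟩
  obtain ⟨tb, htb⟩ : ∃ tb : ℕ, tb = b * (2 ^ m + 1) ^ c := ⟨_, rfl⟩
  have htab : t = ta + tb := by rw [ht, hta, htb]; ring
  obtain ⟨B, hB⟩ : ∃ B : ℕ, B = 2 ^ m + k + (a + b) * (2 ^ m + 1) ^ c := ⟨_, rfl⟩
  have hlogB : Nat.log 2 B ≤ (c + 2) * m := by
    have h1 := (Nat.pow_le_pow_iff_right (by norm_num : 1 < 2)).1 n3
    rw [← hB] at h1
    simpa using h1
  rw [← hB, ← ht] at a2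
  rw [← ht] at a3
  rw [← hta, ← htb]
  obtain ⟨sub, hsub1, hsub2, hsub3⟩ := emb1 m k (τ + 2) (2 ^ (k * m - (τ + 2))) a1 O0
  have hw' : ∀ k', k' ≤ g → ∀ y : Str, y.length ≤ B →
      2 ^ (h k' * L (Nat.log 2 y.length)) ≤ w := by
    intro k' hk' y hy
    rw [hw]
    apply Nat.pow_le_pow_right (by norm_num)
    apply Nat.mul_le_mul (hHm ▸ le_sum h hk')
    apply Finset.le_sup (f := L)
    rw [Finset.mem_range]
    have := (Nat.log_mono_right (b := 2) hy).trans hlogB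
    omega
  obtain ⟨cq, hcq1, hcq2⟩ := Pf91712g.emb L sub hsub1 M' f h c' g B Fm (Fm * (B + 1) ^ c' + 1)
    w (fun k' hk' => hFm ▸ le_sum f hk') (Nat.le_add_left _ _) (Nat.le_succ _)
    (by rw [hw]; positivity) hw'
  obtain ⟨π, hπ⟩ := part (2 ^ (k * m)) (2 ^ (k * m - 2 * (τ + 3))) (4 ^ (τ + 3)) (by
    rw [show (4 : ℕ) = 2 ^ 2 by norm_num, ← pow_mul, ← pow_add]
    congr 1
    omega)
  obtain ⟨ζ, hζ⟩ := coreN (ρ := Fin (2 ^ (k * m))) (Γ := List.Vector Bool tb)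
    (by rw [card_vector, Fintype.card_bool]; exact Nat.pow_le_pow_right (by norm_num) (by omega))
    π hπ cq hcq1
    (fun γ => Pa76659.accTree M (inp3 (List.replicate (2 ^ m) true) k γ.1) ta)
    (fun γ => (Pa76659.accTree_depth M _ ta).trans (by omega)) (by positivity) a2
    (by rw [Fintype.card_fin]; exact a3)
  refine ⟨fun s => (sub s).eval ζ, fun s hs => hsub2 s hs ζ, ?_⟩
  have h1 : ∀ z : Str, z.length = tb →
      (Pa76659.accTree M (inp3 (List.replicate (2 ^ m) true) k z) ta).eval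
        (fun p => (cq p).val ζ) =
      accepts (join (fun s => (sub s).eval ζ)
        (bitsOf (Pf91712g.cnt L (fun s => (sub s).eval ζ) M' f h c') g))
        M (inp3 (List.replicate (2 ^ m) true) k z) ta := by
    intro z hz
    have hqin := Pa76659.accTree_qin M (inp3 (List.replicate (2 ^ m) true) k z) ta _
      (inp3_bddz (List.replicate (2 ^ m) true) k z)
    rw [List.length_replicate] at hqin
    rw [← Pa76659.accTree_eval]
    refine DT.eval_congr (fun v hv => ?_) hqin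
    refine hcq2 ζ v ?_
    have hv' : v.length ≤ 2 ^ m + k + z.length + ta := hv
    rw [hB, ← ht]
    omega
  rw [hsub3 ζ]
  intro h2
  apply hζ
  rw [h2]
  constructor
  · intro h3 z hz
    rw [← h1 z hz]
    exact h3 ⟨z, hz⟩
  · intro h3 γ
    rw [h1 γ.1 γ.2]
    exact h3 γ.1 γ.2

end Pool.Agent.Lib.Pf91712n
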